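import Mathlib

/-! Theorem 1: one of the multipliers `1, ..., K` gives infinitely many composite terms. -/

set_option autoImplicit false

namespace Pool.Agent.helper75.FP

/-- the sequence. -/
noncomputable def yy (a b : ℕ) (ξ : ℝ) (n : ℕ) : ℝ := ξ * ((a : ℝ) / b) ^ n

theorem yy_succ (a b : ℕ) (ξ : ℝ) (hb : 0 < b) (n : ℕ) :
    (b : ℝ) * yy a b ξ (n + 1) = a * yy a b ξ n := by
  have hb' : (b : ℝ) ≠ 0 := by positivity
  unfold yy
  rw [pow_succ]
  field_simp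

theorem yy_pos (a b : ℕ) (ξ : ℝ) (ha : 0 < a) (hb : 0 < b) (hξ : 0 < ξ) (n : ℕ) :
    0 < yy a b ξ n := by
  unfold yy
  positivity

theorem yy_large (a b : ℕ) (ξ : ℝ) (hb : 0 < b) (hab : b < a) (hξ : 0 < ξ) (T : ℝ) :
    ∃ n₁, ∀ n ≥ n₁, T < yy a b ξ n := by
  have h1 : (1 : ℝ) < (a : ℝ) / b := by
    rw [one_lt_div (by positivity)]
    exact_mod_cast hab
  have h2 : Filter.Tendsto (fun n => yy a b ξ n) Filter.atTop Filter.atTop :=
    (tendsto_pow_atTop_atTop_of_one_lt h1).const_mul_atTop hξ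
  exact Filter.eventually_atTop.1 (h2.eventually_gt_atTop T)

/-- composite. -/
def Comp (m : ℕ) : Prop := 1 < m ∧ ¬ m.Prime

/-- the floors of the multiples. -/
theorem floors (K : ℕ) (y : ℝ) (hy : (K : ℝ) + 3 < y)
    (hp : ∀ k, 1 ≤ k → k ≤ K → (⌊(k : ℝ) * y⌋₊).Prime) :
    ∀ k, 1 ≤ k → k ≤ K → ⌊(k : ℝ) * y⌋₊ + 1 = k * (⌊y⌋₊ + 1) := by
  intro k hk
  induction k, hk using Nat.le_induction with
  | base =>
    intro _
    simp
  | succ k hk ih =>
    intro hkK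
    have ih' := ih (by omega)
    have hy0 : 0 < y := by
      have : (0 : ℝ) ≤ K := Nat.cast_nonneg _
      linarith
    set p := ⌊y⌋₊ with hpdef
    have hp0 : p.Prime := by
      have := hp 1 le_rfl (by omega)
      simpa using this
    have hpy : (p : ℝ) ≤ y := Nat.floor_le hy0.le
    have hyp : y < p + 1 := Nat.lt_floor_add_one y
    have hpK : K + 3 ≤ p := by
      rw [hpdef]
      apply Nat.le_floor
      push_cast
      linarith
    have hodd : Odd p := hp0.odd_of_ne_two (by omega)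
    have hkR : (1 : ℝ) ≤ k := by exact_mod_cast hk
    have h1 : (⌊(k : ℝ) * y⌋₊ : ℝ) ≤ k * y := Nat.floor_le (by positivity)
    have h2 : ((⌊(k : ℝ) * y⌋₊ : ℝ) + 1) = k * (p + 1) := by exact_mod_cast ih'
    -- `(k + 1) y` lies in `[(k + 1) (p + 1) - 2, (k + 1) (p + 1))`
    have hlow : (k : ℝ) * (p + 1) - 1 ≤ k * y := by linarith
    have hlow2 : ((k : ℝ) + 1) * (p + 1) - 2 ≤ ((k : ℝ) + 1) * y := by
      have h3 : (p : ℝ) + 1 - y ≤ 1 := by linarith
      nlinarith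
    have hup : ((k : ℝ) + 1) * y < (k + 1) * (p + 1) := by nlinarith
    have hprime := hp (k + 1) (by omega) hkK
    have hF2 : ⌊((k + 1 : ℕ) : ℝ) * y⌋₊ < (k + 1) * (p + 1) := by
      rw [Nat.floor_lt (by positivity)]
      push_cast
      exact hup
    have hF1 : (k + 1) * (p + 1) ≤ ⌊((k + 1 : ℕ) : ℝ) * y⌋₊ + 2 := by
      have h5 : (k + 1) * (p + 1) - 2 ≤ ⌊((k + 1 : ℕ) : ℝ) * y⌋₊ := by
        apply Nat.le_floor
        have h6 : 2 ≤ (k + 1) * (p + 1) := by nlinarith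
        rw [Nat.cast_sub h6]
        push_cast
        exact hlow2
      omega
    have hcase : ⌊((k + 1 : ℕ) : ℝ) * y⌋₊ + 2 ≠ (k + 1) * (p + 1) := by
      intro h7
      obtain ⟨t, ht⟩ := hodd
      have h8 : 2 ∣ ⌊((k + 1 : ℕ) : ℝ) * y⌋₊ := by
        have h9 : 2 ∣ ⌊((k + 1 : ℕ) : ℝ) * y⌋₊ + 2 := by
          rw [h7, ht]
          exact ⟨(k + 1) * (t + 1), by ring⟩
        exact (Nat.dvd_add_left (dvd_refl 2)).1 h9
      have h10 := (Nat.prime_dvd_prime_iff_eq Nat.prime_two hprime).1 h8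
      have h11 : (k + 1) * (p + 1) = 4 := by omega
      nlinarith
    omega

theorem prim_dvd (K : ℕ) (y : ℝ) (hy : (K : ℝ) + 3 < y)
    (hp : ∀ k, 1 ≤ k → k ≤ K → (⌊(k : ℝ) * y⌋₊).Prime) : primorial (K + 1) ∣ ⌊y⌋₊ + 1 := by
  have hfl := floors K y hy hp
  unfold primorial
  have hy0 : 0 < y := by
    have : (0 : ℝ) ≤ K := Nat.cast_nonneg _
    linarith
  apply Finset.prod_primes_dvd
  · intro q hq
    exact (Finset.mem_filter.1 hq).2.prime
  · intro q hq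
    rw [Finset.mem_filter, Finset.mem_range] at hq
    obtain ⟨hq1, hq2⟩ := hq
    by_contra hnd
    have hcop : Nat.Coprime q (⌊y⌋₊ + 1) := (Nat.Prime.coprime_iff_not_dvd hq2).2 hnd
    -- an inverse of `p + 1` modulo `q`
    obtain ⟨k, hk1, hk2, hk3⟩ : ∃ k, 1 ≤ k ∧ k ≤ K ∧ q ∣ k * (⌊y⌋₊ + 1) - 1 := by
      have hq3 := hq2.two_le
      have : Fact q.Prime := ⟨hq2⟩
      have hne : ((⌊y⌋₊ + 1 : ℕ) : ZMod q) ≠ 0 := by
        rw [Ne, ZMod.natCast_eq_zero_iff]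
        exact hnd
      set u : ZMod q := (((⌊y⌋₊ + 1 : ℕ) : ZMod q))⁻¹ with hu
      have hu0 : u ≠ 0 := inv_ne_zero hne
      have hval : u.val ≠ 0 := by
        rw [Ne, ZMod.val_eq_zero]
        exact hu0
      have hval2 : u.val < q := ZMod.val_lt u
      refine ⟨u.val, by omega, by omega, ?_⟩
      have h1 : 1 ≤ u.val * (⌊y⌋₊ + 1) := Nat.mul_pos (by omega) (Nat.succ_pos _)
      rw [← ZMod.natCast_eq_zero_iff, Nat.cast_sub h1, Nat.cast_mul, ZMod.natCast_zmod_val, hu,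
        inv_mul_cancel₀ hne, Nat.cast_one, sub_self]
    have h2 := hfl k hk1 hk2
    have h3 : k * (⌊y⌋₊ + 1) - 1 = ⌊(k : ℝ) * y⌋₊ := by omega
    rw [h3] at hk3
    have h4 := (Nat.prime_dvd_prime_iff_eq hq2 (hp k hk1 hk2)).1 hk3
    have h5 : K + 3 ≤ ⌊(k : ℝ) * y⌋₊ := by
      apply Nat.le_floor
      push_cast
      have : (1 : ℝ) ≤ k := by exact_mod_cast hk1
      nlinarith
    omega

theorem theorem1 (a b : ℕ) (hb : 1 < b) (hab : b < a) (ξ : ℝ) (hξ : 0 < ξ) (K : ℕ) (hK : 1 ≤ K)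
    (haK : a ≤ K * primorial (K + 1)) :
    ∃ k, 1 ≤ k ∧ k ≤ K ∧ {n : ℕ | Comp ⌊(k : ℝ) * yy a b ξ n⌋₊}.Infinite := by
  by_contra hcon
  push Not at hcon
  have hb0 : 0 < b := by omega
  have ha0 : 0 < a := by omega
  -- from some index on all the floors are prime
  have hfin : ∀ k, 1 ≤ k → k ≤ K → ∃ n₀, ∀ n ≥ n₀, ¬ Comp ⌊(k : ℝ) * yy a b ξ n⌋₊ := by
    intro k h1 h2
    have h3 := hcon k h1 h2
    obtain ⟨M, hM⟩ := h3.bddAbove
    refine ⟨M + 1, fun n hn hc => ?_⟩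
    have := hM (show n ∈ {n : ℕ | Comp ⌊(k : ℝ) * yy a b ξ n⌋₊} from hc)
    omega
  choose! N hN using hfin
  obtain ⟨n₁, hn₁⟩ := yy_large a b ξ hb0 hab hξ ((K : ℝ) + 3)
  set n₂ := max n₁ ((Finset.Icc 1 K).sup N) with hn₂
  have hbig : ∀ n ≥ n₂, (K : ℝ) + 3 < yy a b ξ n := fun n hn =>
    hn₁ n (le_trans (le_max_left _ _) hn)
  have hprime : ∀ n ≥ n₂, ∀ k, 1 ≤ k → k ≤ K → (⌊(k : ℝ) * yy a b ξ n⌋₊).Prime := by
    intro n hn k h1 h2
    have h3 : N k ≤ n := le_trans (Finset.le_sup (Finset.mem_Icc.2 ⟨h1, h2⟩))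
      (le_trans (le_max_right _ _) hn)
    have h4 := hN k h1 h2 n h3
    by_contra h5
    apply h4
    refine ⟨?_, h5⟩
    have h6 : K + 3 ≤ ⌊(k : ℝ) * yy a b ξ n⌋₊ := by
      apply Nat.le_floor
      push_cast
      have : (1 : ℝ) ≤ k := by exact_mod_cast h1
      have := hbig n hn
      nlinarith
    omega
  -- notation
  set x : ℕ → ℤ := fun n => (⌊yy a b ξ n⌋₊ : ℤ) + 1 with hx
  have hKR : (1 : ℝ) ≤ K := by exact_mod_cast hK
  have heps : ∀ n ≥ n₂, 0 < (x n : ℝ) - yy a b ξ n ∧ K * ((x n : ℝ) - yy a b ξ n) ≤ 1 := by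
    intro n hn
    have h1 := floors K (yy a b ξ n) (hbig n hn) (hprime n hn) K hK le_rfl
    have hy0 := yy_pos a b ξ ha0 hb0 hξ n
    have h2 : (⌊(K : ℝ) * yy a b ξ n⌋₊ : ℝ) ≤ K * yy a b ξ n := Nat.floor_le (by positivity)
    have h3 : yy a b ξ n < ⌊yy a b ξ n⌋₊ + 1 := Nat.lt_floor_add_one _
    have h4 : ((⌊(K : ℝ) * yy a b ξ n⌋₊ : ℝ) + 1) = K * (⌊yy a b ξ n⌋₊ + 1) := by
      exact_mod_cast h1
    have h5 : (x n : ℝ) = ⌊yy a b ξ n⌋₊ + 1 := by
      rw [hx]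
      push_cast
      rfl
    rw [h5]
    constructor
    · linarith
    · linarith
  have hdvd : ∀ n ≥ n₂, ((primorial (K + 1) : ℕ) : ℤ) ∣ x n := by
    intro n hn
    have h1 := prim_dvd K (yy a b ξ n) (hbig n hn) (hprime n hn)
    show ((primorial (K + 1) : ℕ) : ℤ) ∣ (⌊yy a b ξ n⌋₊ : ℤ) + 1
    exact_mod_cast h1
  have hstep : ∀ n ≥ n₂, (b : ℤ) * x (n + 1) = a * x n := by
    intro n hn
    obtain ⟨h1, h2⟩ := heps n hn
    obtain ⟨h3, h4⟩ := heps (n + 1) (by omega)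
    have h5 := yy_succ a b ξ hb0 n
    set P : ℤ := ((primorial (K + 1) : ℕ) : ℤ) with hP
    have hdv : P ∣ (b : ℤ) * x (n + 1) - a * x n :=
      dvd_sub ((hdvd (n + 1) (by omega)).mul_left _) ((hdvd n hn).mul_left _)
    have haK' : (a : ℝ) ≤ K * (P : ℝ) := by
      rw [hP]
      exact_mod_cast haK
    have hba : (b : ℝ) < a := by exact_mod_cast hab
    have hbR : (0 : ℝ) < b := by exact_mod_cast hb0
    have haR : (0 : ℝ) < a := by exact_mod_cast ha0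
    set D : ℤ := (b : ℤ) * x (n + 1) - a * x n with hD
    have hDR : (D : ℝ) = b * ((x (n + 1) : ℝ) - yy a b ξ (n + 1)) -
        a * ((x n : ℝ) - yy a b ξ n) := by
      rw [hD]
      push_cast
      linarith
    have hK0 : (0 : ℝ) < K := by linarith
    have hlt1 : (K : ℝ) * D < K * P := by
      have h6 : (K : ℝ) * D < a := by
        rw [hDR]
        have h7 : (b : ℝ) * (K * ((x (n + 1) : ℝ) - yy a b ξ (n + 1))) ≤ b * 1 :=
          mul_le_mul_of_nonneg_left h4 hbR.le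
        have h8 : 0 < (K : ℝ) * (a * ((x n : ℝ) - yy a b ξ n)) := by positivity
        nlinarith
      linarith
    have hlt2 : -((K : ℝ) * P) < K * D := by
      have h6 : -(a : ℝ) < K * D := by
        rw [hDR]
        have h7 : (a : ℝ) * (K * ((x n : ℝ) - yy a b ξ n)) ≤ a * 1 :=
          mul_le_mul_of_nonneg_left h2 haR.le
        have h8 : 0 < (K : ℝ) * (b * ((x (n + 1) : ℝ) - yy a b ξ (n + 1))) := by positivity
        nlinarith
      linarith
    have hlt1' : D < P := by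
      have := lt_of_mul_lt_mul_left hlt1 hK0.le
      exact_mod_cast this
    have hlt2' : -P < D := by
      have h9 : (K : ℝ) * (-(P : ℝ)) < K * D := by linarith
      have := lt_of_mul_lt_mul_left h9 hK0.le
      exact_mod_cast this
    have hD0 : D = 0 := Int.eq_zero_of_abs_lt_dvd hdv (abs_lt.2 ⟨hlt2', hlt1'⟩)
    omega
  -- the distances grow
  have hgrow : ∀ j, (x (n₂ + j) : ℝ) - yy a b ξ (n₂ + j) =
      ((a : ℝ) / b) ^ j * ((x n₂ : ℝ) - yy a b ξ n₂) := by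
    intro j
    induction j with
    | zero => simp
    | succ j ih =>
      have h1 := hstep (n₂ + j) (by omega)
      have h2 := yy_succ a b ξ hb0 (n₂ + j)
      have h3 : (b : ℝ) * x (n₂ + j + 1) = a * x (n₂ + j) := by exact_mod_cast h1
      have hbR : (b : ℝ) ≠ 0 := by positivity
      rw [pow_succ, mul_right_comm, ← ih, ← add_assoc]
      field_simp
      linarith
  obtain ⟨h1, h2⟩ := heps n₂ le_rfl
  have hr : (1 : ℝ) < (a : ℝ) / b := by
    rw [one_lt_div (by positivity)]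
    exact_mod_cast hab
  obtain ⟨j, hj⟩ := pow_unbounded_of_one_lt (1 / ((x n₂ : ℝ) - yy a b ξ n₂)) hr
  obtain ⟨h3, h4⟩ := heps (n₂ + j) (by omega)
  rw [hgrow j] at h4
  rw [div_lt_iff₀ h1] at hj
  nlinarith

end Pool.Agent.helper75.FP
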