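import Pool.Agent.helper75.FP.T1

/-! Theorem 2: all but `O(X^γ)` of the multipliers `k ≤ X` give infinitely many terms that are not coprime to `P`. -/

set_option autoImplicit false

namespace Pool.Agent.helper75.FP

theorem generic (a b : ℕ) (hcop : a.Coprime b) (hb : 1 < b) (hab : b < a) (ξ : ℝ) (hξ : 0 < ξ)
    (τ : ℝ) (hτ : 0 < τ) (X : ℕ) (hX : 1 ≤ X) (n₁ : ℕ) :
    ∃ n ≥ n₁, ∀ s : ℕ, 1 ≤ s → s ≤ X → ∀ u : ℤ,
      1 ≤ ((a : ℝ) + b) * X * |s * (τ * yy a b ξ n) - u| := by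
  by_contra hcon
  push Not at hcon
  choose! s hs using hcon
  have hs1 : ∀ n ≥ n₁, 1 ≤ s n := fun n hn => (hs n hn).1
  have hs2 : ∀ n ≥ n₁, s n ≤ X := fun n hn => (hs n hn).2.1
  have hs3 : ∀ n ≥ n₁, ∃ u : ℤ, ((a : ℝ) + b) * X * |s n * (τ * yy a b ξ n) - u| < 1 :=
    fun n hn => (hs n hn).2.2
  choose! u hu using hs3
  have hb0 : 0 < b := by omega
  have ha0 : 0 < a := by omega
  obtain ⟨n₂, hn₂⟩ := yy_large a b ξ hb0 hab hξ (1 / τ)
  set n₃ := max n₁ n₂ with hn₃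
  have hXR : (1 : ℝ) ≤ X := by exact_mod_cast hX
  have hbR : (1 : ℝ) < b := by exact_mod_cast hb
  have haR : (0 : ℝ) < a := by exact_mod_cast ha0
  have hupos : ∀ n ≥ n₃, 1 ≤ u n := by
    intro n hn
    have h1 : n₁ ≤ n := le_trans (le_max_left _ _) hn
    have h2 : n₂ ≤ n := le_trans (le_max_right _ _) hn
    have h3 := hn₂ n h2
    rw [div_lt_iff₀ hτ] at h3
    have h4 := hu n h1
    have h5 : (1 : ℝ) ≤ s n := by exact_mod_cast hs1 n h1
    have h6 : |s n * (τ * yy a b ξ n) - u n| < 1 := by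
      have h7 : 1 ≤ ((a : ℝ) + b) * X := by nlinarith
      have h8 := abs_nonneg ((s n : ℝ) * (τ * yy a b ξ n) - u n)
      nlinarith
    have h9 : (0 : ℝ) < u n := by
      have := (abs_lt.1 h6).2
      nlinarith
    have : (0 : ℤ) < u n := by exact_mod_cast h9
    omega
  have hstep : ∀ n ≥ n₃, (b : ℤ) * s n * u (n + 1) = a * s (n + 1) * u n := by
    intro n hn
    have h1 : n₁ ≤ n := le_trans (le_max_left _ _) hn
    have h2 := hu n h1
    have h3 := hu (n + 1) (by omega)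
    have h4 := yy_succ a b ξ hb0 n
    set e := (s n : ℝ) * (τ * yy a b ξ n) - u n with he
    set e' := (s (n + 1) : ℝ) * (τ * yy a b ξ (n + 1)) - u (n + 1) with he'
    have h5 : ((b : ℤ) * s n * u (n + 1) - a * s (n + 1) * u n : ℝ) =
        a * s (n + 1) * e - b * s n * e' := by
      rw [he, he']
      have h6 : (b : ℝ) * s n * (s (n + 1) * (τ * yy a b ξ (n + 1))) =
          a * s (n + 1) * (s n * (τ * yy a b ξ n)) := by
        calc (b : ℝ) * s n * (s (n + 1) * (τ * yy a b ξ (n + 1))) =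
            s n * s (n + 1) * τ * (b * yy a b ξ (n + 1)) := by ring
          _ = s n * s (n + 1) * τ * (a * yy a b ξ n) := by rw [h4]
          _ = _ := by ring
      push_cast
      linarith
    have h7 : |(a : ℝ) * s (n + 1) * e - b * s n * e'| < 1 := by
      have h8 : (s (n + 1) : ℝ) ≤ X := by exact_mod_cast hs2 (n + 1) (by omega)
      have h9 : (s n : ℝ) ≤ X := by exact_mod_cast hs2 n h1
      have h10 : |(a : ℝ) * s (n + 1) * e| ≤ a * (X * |e|) := by
        rw [abs_mul, abs_mul, abs_of_pos haR, abs_of_nonneg (Nat.cast_nonneg _), mul_assoc]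
        exact mul_le_mul_of_nonneg_left (mul_le_mul_of_nonneg_right h8 (abs_nonneg _)) haR.le
      have h11 : |(b : ℝ) * s n * e'| ≤ b * (X * |e'|) := by
        rw [abs_mul, abs_mul, abs_of_pos (by linarith : (0 : ℝ) < b),
          abs_of_nonneg (Nat.cast_nonneg _), mul_assoc]
        exact mul_le_mul_of_nonneg_left (mul_le_mul_of_nonneg_right h9 (abs_nonneg _))
          (by linarith)
      have h12 : X * |e| < 1 / (a + b) := by
        rw [lt_div_iff₀ (by linarith)]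
        linarith
      have h13 : X * |e'| < 1 / (a + b) := by
        rw [lt_div_iff₀ (by linarith)]
        linarith
      have h14 : |(a : ℝ) * s (n + 1) * e - b * s n * e'| ≤
          |(a : ℝ) * s (n + 1) * e| + |(b : ℝ) * s n * e'| := abs_sub _ _
      have h15 : (a : ℝ) * (1 / (a + b)) + b * (1 / (a + b)) = 1 := by
        field_simp
      have h16 : (a : ℝ) * (X * |e|) < a * (1 / (a + b)) := mul_lt_mul_of_pos_left h12 haR
      have h17 : (b : ℝ) * (X * |e'|) < b * (1 / (a + b)) :=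
        mul_lt_mul_of_pos_left h13 (by linarith)
      linarith
    rw [← h5] at h7
    have h8 : |(b : ℤ) * s n * u (n + 1) - a * s (n + 1) * u n| < 1 := by
      have h9 : ((|(b : ℤ) * s n * u (n + 1) - a * s (n + 1) * u n| : ℤ) : ℝ) < 1 := by
        push_cast
        push_cast at h7
        exact h7
      exact_mod_cast h9
    have := Int.abs_lt_one_iff.1 h8
    linarith
  have hind : ∀ j, (b : ℤ) ^ j * s n₃ * u (n₃ + j) = a ^ j * s (n₃ + j) * u n₃ := by
    intro j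
    induction j with
    | zero => simp
    | succ j ih =>
      have h1 := hstep (n₃ + j) (by omega)
      have h2 : (0 : ℤ) < s (n₃ + j) := by
        have := hs1 (n₃ + j) (le_trans (le_max_left _ _) (Nat.le_add_right _ _))
        omega
      have h3 : (s (n₃ + j) : ℤ) * ((b : ℤ) ^ (j + 1) * s n₃ * u (n₃ + (j + 1))) =
          s (n₃ + j) * (a ^ (j + 1) * s (n₃ + (j + 1)) * u n₃) := by
        calc (s (n₃ + j) : ℤ) * ((b : ℤ) ^ (j + 1) * s n₃ * u (n₃ + (j + 1))) =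
            (b : ℤ) ^ j * s n₃ * (b * s (n₃ + j) * u (n₃ + j + 1)) := by
              rw [← add_assoc]; ring
          _ = (b : ℤ) ^ j * s n₃ * (a * s (n₃ + j + 1) * u (n₃ + j)) := by rw [h1]
          _ = a * s (n₃ + j + 1) * ((b : ℤ) ^ j * s n₃ * u (n₃ + j)) := by ring
          _ = a * s (n₃ + j + 1) * (a ^ j * s (n₃ + j) * u n₃) := by rw [ih]
          _ = _ := by rw [← add_assoc]; ring
      exact mul_left_cancel₀ h2.ne' h3
  have hun : 1 ≤ u n₃ := hupos n₃ le_rfl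
  have hdiv : ∀ j, (b : ℤ) ^ j ≤ X * u n₃ := by
    intro j
    have h1 : (b : ℤ) ^ j ∣ a ^ j * (s (n₃ + j) * u n₃) := by
      rw [← mul_assoc, ← hind j, mul_assoc]
      exact dvd_mul_right _ _
    have h2 : IsCoprime ((b : ℤ) ^ j) (a ^ j) :=
      (Nat.isCoprime_iff_coprime.2 hcop.symm).pow
    have h3 := h2.dvd_of_dvd_mul_left h1
    have h4 : 1 ≤ s (n₃ + j) := hs1 (n₃ + j) (le_trans (le_max_left _ _) (Nat.le_add_right _ _))
    have h4' : s (n₃ + j) ≤ X := hs2 (n₃ + j) (le_trans (le_max_left _ _) (Nat.le_add_right _ _))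
    have h5 : (1 : ℤ) ≤ s (n₃ + j) := by exact_mod_cast h4
    have h5' : (s (n₃ + j) : ℤ) ≤ X := by exact_mod_cast h4'
    have h6 := Int.le_of_dvd (by positivity) h3
    nlinarith
  obtain ⟨j, hj⟩ := pow_unbounded_of_one_lt ((X : ℤ) * u n₃) (show (1 : ℤ) < b by exact_mod_cast hb)
  exact absurd (hdiv j) (not_le.2 hj)

theorem card_int (S : Finset ℤ) (P a : ℕ) (hP : 0 < P)
    (h : ∀ c ∈ S, ∀ c' ∈ S, (P : ℤ) * (c - c') ≤ a) : S.card ≤ a / P + 1 := by
  rcases S.eq_empty_or_nonempty with rfl | hne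
  · simp
  obtain ⟨c₀, hc₀, hmin⟩ := S.exists_min_image id hne
  have hsub : S ⊆ Finset.Icc c₀ (c₀ + (a / P : ℕ)) := by
    intro c hc
    rw [Finset.mem_Icc]
    refine ⟨hmin c hc, ?_⟩
    have h1 := h c hc c₀ hc₀
    have h2 : 0 ≤ c - c₀ := sub_nonneg.2 (hmin c hc)
    obtain ⟨w, hw⟩ := Int.eq_ofNat_of_zero_le h2
    rw [hw] at h1
    have h3 : P * w ≤ a := by exact_mod_cast h1
    have h4 : w ≤ a / P := (Nat.le_div_iff_mul_le hP).2 (by rw [mul_comm]; exact h3)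
    have h5 : (w : ℤ) ≤ (a / P : ℕ) := by exact_mod_cast h4
    linarith
  refine (Finset.card_le_card hsub).trans (le_of_eq ?_)
  rw [Int.card_Icc]
  have : c₀ + ((a / P : ℕ) : ℤ) + 1 - c₀ = ((a / P + 1 : ℕ) : ℤ) := by
    push_cast
    ring
  rw [this, Int.toNat_natCast]

/-- the condition on the residue `l` at the level `m`. -/
def OK (a b P m l : ℕ) : Prop :=
  ∃ x : ℝ, 0 ≤ x ∧ x < 1 ∧ (⌊(P : ℝ) * b ^ m * (x + l) / a ^ m⌋₊).Coprime P

theorem fiber_r (a b P m : ℕ) (hcop : a.Coprime b) (ha : 0 < a) (hP : 0 < P)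
    (hm : a * P * b ^ (m + 1) ≤ a ^ (m + 1)) (l' r : ℕ) (F : Finset ℕ)
    (hF : ∀ l ∈ F, l < a ^ (m + 1) ∧ l % a ^ m = l' ∧ ∃ x : ℝ, 0 ≤ x ∧ x < 1 ∧
      ⌊(P : ℝ) * b ^ (m + 1) * (x + l) / a ^ (m + 1)⌋₊ % P = r) : F.card ≤ a / P + 1 := by
  classical
  choose! hF1 hF2 x hx0 hx1 hx2 using hF
  set J : ℕ → ℕ := fun l => ⌊(P : ℝ) * b ^ (m + 1) * (x l + l) / a ^ (m + 1)⌋₊ / P with hJ
  set h : ℕ → ℤ := fun l => (b : ℤ) ^ (m + 1) * (l / a ^ m : ℕ) - a * J l with hh
  have hapos : 0 < a ^ m := pow_pos ha m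
  have haR : (0 : ℝ) < a := by exact_mod_cast ha
  have hinj : Set.InjOn h F := by
    intro l₁ h1 l₂ h2 h12
    have h3 : (b : ℤ) ^ (m + 1) * ((l₁ / a ^ m : ℕ) - (l₂ / a ^ m : ℕ)) = a * (J l₁ - J l₂) := by
      simp only [hh] at h12
      linarith
    have h4 : (a : ℤ) ∣ (b : ℤ) ^ (m + 1) * ((l₁ / a ^ m : ℕ) - (l₂ / a ^ m : ℕ)) := ⟨_, h3⟩
    have h5 : IsCoprime (a : ℤ) ((b : ℤ) ^ (m + 1)) :=
      (Nat.isCoprime_iff_coprime.2 hcop).pow_right
    have h6 := h5.dvd_of_dvd_mul_left h4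
    have h7 : l₁ / a ^ m < a := by
      rw [Nat.div_lt_iff_lt_mul hapos, ← pow_succ']
      exact hF1 l₁ h1
    have h8 : l₂ / a ^ m < a := by
      rw [Nat.div_lt_iff_lt_mul hapos, ← pow_succ']
      exact hF1 l₂ h2
    have h9 : ((l₁ / a ^ m : ℕ) : ℤ) - (l₂ / a ^ m : ℕ) = 0 := by
      apply Int.eq_zero_of_abs_lt_dvd h6
      rw [abs_lt]
      have key : ∀ d₁ d₂ : ℕ, d₁ < a → d₂ < a →
          -(a : ℤ) < (d₁ : ℤ) - d₂ ∧ (d₁ : ℤ) - d₂ < a := by
        intro d₁ d₂ hd1 hd2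
        constructor <;> omega
      exact key _ _ h7 h8
    have h10 : l₁ / a ^ m = l₂ / a ^ m := by omega
    have h11 := Nat.div_add_mod l₁ (a ^ m)
    have h12' := Nat.div_add_mod l₂ (a ^ m)
    rw [hF2 l₁ h1] at h11
    rw [hF2 l₂ h2, ← h10] at h12'
    omega
  have hcard : F.card = (F.image h).card := (Finset.card_image_of_injOn hinj).symm
  rw [hcard]
  apply card_int _ _ _ hP
  -- the values of `h` lie in a short interval
  set E : ℝ := (a : ℝ) * r - P * b ^ (m + 1) * l' / a ^ m with hE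
  have hval : ∀ l ∈ F, E - 1 < P * (h l : ℝ) ∧ P * (h l : ℝ) < E + a := by
    intro l hl
    have h1 := hx2 l hl
    set w : ℝ := (P : ℝ) * b ^ (m + 1) * (x l + l) / a ^ (m + 1) with hw
    have hxl0 := hx0 l hl
    have hxl1 := hx1 l hl
    have hw0 : 0 ≤ w := by
      rw [hw]
      positivity
    have h2 : (⌊w⌋₊ : ℝ) ≤ w := Nat.floor_le hw0
    have h3 : w < ⌊w⌋₊ + 1 := Nat.lt_floor_add_one w
    have h4 : ⌊w⌋₊ = P * J l + r := by
      rw [← h1]
      exact (Nat.div_add_mod _ _).symm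
    have h5 : (⌊w⌋₊ : ℝ) = P * J l + r := by
      rw [h4]
      push_cast
      ring
    have h6 : (l : ℝ) = a ^ m * (l / a ^ m : ℕ) + l' := by
      have := Nat.div_add_mod l (a ^ m)
      rw [hF2 l hl] at this
      exact_mod_cast this.symm
    have hap : (a : ℝ) ^ m ≠ 0 := by positivity
    have h7 : a * w = P * b ^ (m + 1) * x l / a ^ m + P * b ^ (m + 1) * (l / a ^ m : ℕ) +
        P * b ^ (m + 1) * l' / a ^ m := by
      rw [hw, h6, pow_succ (a : ℝ) m]
      field_simp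
      ring
    have h8 : 0 ≤ P * b ^ (m + 1) * x l / (a : ℝ) ^ m := by positivity
    have h9 : P * b ^ (m + 1) * x l / (a : ℝ) ^ m < 1 := by
      rw [div_lt_one (by positivity)]
      have h10 : (P : ℝ) * b ^ (m + 1) ≤ a ^ m := by
        have h11 : P * b ^ (m + 1) ≤ a ^ m := by
          have h12 : a * (P * b ^ (m + 1)) ≤ a * a ^ m := by
            rw [← mul_assoc, ← pow_succ']
            exact hm
          exact Nat.le_of_mul_le_mul_left h12 ha
        exact_mod_cast h11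
      have h12 : (0 : ℝ) < a ^ m := by positivity
      rcases eq_or_lt_of_le hxl0 with h13 | h13
      · rw [← h13, mul_zero]
        exact h12
      · have : (P : ℝ) * b ^ (m + 1) * x l ≤ a ^ m * x l :=
          mul_le_mul_of_nonneg_right h10 hxl0
        nlinarith
    have h10 : (P : ℝ) * (h l : ℝ) = P * b ^ (m + 1) * (l / a ^ m : ℕ) - a * (P * J l) := by
      simp only [hh, Int.cast_sub, Int.cast_mul, Int.cast_pow, Int.cast_natCast]
      ring
    rw [h10, hE]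
    constructor
    · nlinarith
    · nlinarith
  intro c hc c' hc'
  obtain ⟨l₁, h1, rfl⟩ := Finset.mem_image.1 hc
  obtain ⟨l₂, h2, rfl⟩ := Finset.mem_image.1 hc'
  have h3 := hval l₁ h1
  have h4 := hval l₂ h2
  have h5 : (P : ℝ) * ((h l₁ : ℝ) - h l₂) < a + 1 := by linarith
  have h6 : (P : ℤ) * (h l₁ - h l₂) < a + 1 := by exact_mod_cast h5
  omega

theorem fiber (a b P m : ℕ) (hcop : a.Coprime b) (ha : 0 < a) (hP : 0 < P)
    (hm : a * P * b ^ (m + 1) ≤ a ^ (m + 1)) (l' : ℕ) (F : Finset ℕ)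
    (hF : ∀ l ∈ F, l < a ^ (m + 1) ∧ l % a ^ m = l' ∧ OK a b P (m + 1) l) :
    F.card ≤ P.totient * (a / P + 1) := by
  classical
  have hsub : F ⊆ ((Finset.range P).filter (fun r => P.Coprime r)).biUnion (fun r =>
      F.filter (fun l => ∃ x : ℝ, 0 ≤ x ∧ x < 1 ∧
        ⌊(P : ℝ) * b ^ (m + 1) * (x + l) / a ^ (m + 1)⌋₊ % P = r)) := by
    intro l hl
    obtain ⟨-, -, x, hx0, hx1, hx2⟩ := hF l hl
    rw [Finset.mem_biUnion]
    refine ⟨⌊(P : ℝ) * b ^ (m + 1) * (x + l) / a ^ (m + 1)⌋₊ % P, ?_, ?_⟩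
    · rw [Finset.mem_filter, Finset.mem_range]
      refine ⟨Nat.mod_lt _ hP, ?_⟩
      unfold Nat.Coprime at hx2 ⊢
      rw [Nat.gcd_comm, ← Nat.gcd_rec, Nat.gcd_comm]
      exact hx2
    · rw [Finset.mem_filter]
      exact ⟨hl, x, hx0, hx1, rfl⟩
  refine (Finset.card_le_card hsub).trans ((Finset.card_biUnion_le).trans ?_)
  refine (Finset.sum_le_card_nsmul _ _ (a / P + 1) ?_).trans (le_of_eq ?_)
  · intro r _
    apply fiber_r a b P m hcop ha hP hm l' r
    intro l hl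
    rw [Finset.mem_filter] at hl
    exact ⟨(hF l hl.1).1, (hF l hl.1).2.1, hl.2⟩
  · rw [smul_eq_mul]
    rfl

open Classical in
/-- residues modulo `a ^ N` that are allowed at all the levels. -/
noncomputable def TT (a b P N : ℕ) : Finset ℕ :=
  (Finset.range (a ^ N)).filter (fun l => ∀ m, 1 ≤ m → m ≤ N → OK a b P m (l % a ^ m))

theorem TT_step (a b P N g : ℕ) (ha : 0 < a)
    (hg : ∀ l' : ℕ, ∀ F : Finset ℕ, (∀ l ∈ F, l < a ^ (N + 1) ∧ l % a ^ N = l' ∧
      OK a b P (N + 1) l) → F.card ≤ g) : (TT a b P (N + 1)).card ≤ g * (TT a b P N).card := by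
  classical
  have h1 : (TT a b P (N + 1)).card ≤
      g * ((TT a b P (N + 1)).image (fun l => l % a ^ N)).card := by
    apply Finset.card_le_mul_card_image
    intro l' _
    apply hg l'
    intro l hl
    rw [Finset.mem_filter] at hl
    unfold TT at hl
    rw [Finset.mem_filter, Finset.mem_range] at hl
    obtain ⟨⟨h2, h3⟩, h4⟩ := hl
    refine ⟨h2, h4, ?_⟩
    have h5 := h3 (N + 1) (by omega) le_rfl
    rwa [Nat.mod_eq_of_lt h2] at h5
  refine h1.trans (Nat.mul_le_mul_left _ (Finset.card_le_card ?_))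
  intro l' hl'
  obtain ⟨l, hl, rfl⟩ := Finset.mem_image.1 hl'
  unfold TT at hl ⊢
  rw [Finset.mem_filter, Finset.mem_range] at hl ⊢
  refine ⟨Nat.mod_lt _ (pow_pos ha N), fun m hm1 hm2 => ?_⟩
  have h5 := hl.2 m hm1 (by omega)
  rwa [Nat.mod_mod_of_dvd _ (pow_dvd_pow a hm2)]

theorem TT_triv (a b P N : ℕ) : (TT a b P N).card ≤ a ^ N := by
  classical
  unfold TT
  exact (Finset.card_filter_le _ _).trans (le_of_eq (Finset.card_range _))

theorem TT_card (a b P : ℕ) (hcop : a.Coprime b) (ha : 0 < a) (hP : 0 < P)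
    (m₀ : ℕ) (hm : ∀ m ≥ m₀, a * P * b ^ (m + 1) ≤ a ^ (m + 1)) (N : ℕ) :
    (TT a b P N).card ≤ a ^ m₀ * (P.totient * (a / P + 1)) ^ N := by
  have hg : 1 ≤ P.totient * (a / P + 1) := Nat.mul_pos (Nat.totient_pos.2 hP) (Nat.succ_pos _)
  induction N with
  | zero =>
    refine (TT_triv a b P 0).trans ?_
    rw [pow_zero, pow_zero, mul_one]
    exact Nat.one_le_pow _ _ ha
  | succ N ih =>
    by_cases hN : m₀ ≤ N
    · have h1 := TT_step a b P N (P.totient * (a / P + 1)) ha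
        (fun l' F hF => fiber a b P N hcop ha hP (hm N hN) l' F hF)
      calc (TT a b P (N + 1)).card ≤ P.totient * (a / P + 1) * (TT a b P N).card := h1
        _ ≤ P.totient * (a / P + 1) * (a ^ m₀ * (P.totient * (a / P + 1)) ^ N) :=
          Nat.mul_le_mul_left _ ih
        _ = _ := by ring
    · refine (TT_triv a b P (N + 1)).trans ?_
      calc a ^ (N + 1) ≤ a ^ m₀ := Nat.pow_le_pow_right ha (by omega)
        _ = a ^ m₀ * 1 := (mul_one _).symm
        _ ≤ _ := Nat.mul_le_mul_left _ (Nat.one_le_pow _ _ hg)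

theorem exists_m0 (a b P : ℕ) (hb : 0 < b) (hab : b < a) :
    ∃ m₀, ∀ m ≥ m₀, a * P * b ^ (m + 1) ≤ a ^ (m + 1) := by
  have hr : (1 : ℝ) < (a : ℝ) / b := by
    rw [one_lt_div (by positivity)]
    exact_mod_cast hab
  have h1 := (tendsto_pow_atTop_atTop_of_one_lt hr).eventually_ge_atTop ((a : ℝ) * P)
  obtain ⟨m₀, hm₀⟩ := Filter.eventually_atTop.1 h1
  refine ⟨m₀, fun m hm => ?_⟩
  have h2 := hm₀ (m + 1) (by omega)
  rw [div_pow, le_div_iff₀ (by positivity)] at h2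
  exact_mod_cast h2

end Pool.Agent.helper75.FP
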