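import Pool.Agent.helper75.FP.T2

/-! Theorem 2, end of the proof: from multipliers to residues. -/

set_option autoImplicit false

namespace Pool.Agent.helper75.FP

/-- The multiplier `k` with all the terms of the indices `n, ..., n + N` coprime to `P` gives a residue in `TT`. -/
theorem mem_TT (a b P N : ℕ) (ha : 0 < a) (hb : 0 < b) (hP : 0 < P) (ξ : ℝ) (hξ : 0 < ξ) (n k : ℕ)
    (h : ∀ i ≤ N, (⌊(k : ℝ) * yy a b ξ (n + i)⌋₊).Coprime P) :
    ⌊(a : ℝ) ^ N * Int.fract ((k : ℝ) * (1 / (P * b ^ N) * yy a b ξ n))⌋₊ ∈ TT a b P N := by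
  classical
  have haR : (0 : ℝ) < a := by exact_mod_cast ha
  have hbR : (0 : ℝ) < b := by exact_mod_cast hb
  have hPR : (0 : ℝ) < P := by exact_mod_cast hP
  have hy := yy_pos a b ξ ha hb hξ n
  set α : ℝ := (k : ℝ) * (1 / (P * b ^ N) * yy a b ξ n) with hα
  have hα0 : 0 ≤ α := by positivity
  set t : ℝ := Int.fract α with ht
  have ht0 : 0 ≤ t := Int.fract_nonneg _
  have ht1 : t < 1 := Int.fract_lt_one _
  set l : ℕ := ⌊(a : ℝ) ^ N * t⌋₊ with hl
  set x : ℝ := (a : ℝ) ^ N * t - l with hx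
  have haN : (0 : ℝ) < a ^ N := by positivity
  have hx0 : 0 ≤ x := by
    have := Nat.floor_le (mul_nonneg haN.le ht0)
    rw [hx]
    linarith
  have hx1 : x < 1 := by
    have := Nat.lt_floor_add_one ((a : ℝ) ^ N * t)
    rw [hx]
    linarith
  have hK : α = (⌊α⌋₊ : ℝ) + t := by
    have h1 : (⌊α⌋₊ : ℝ) = (⌊α⌋ : ℝ) := by
      have := Int.natCast_floor_eq_floor hα0
      exact_mod_cast this
    rw [h1, ht]
    exact (Int.floor_add_fract α).symm
  unfold TT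
  rw [Finset.mem_filter, Finset.mem_range]
  constructor
  · rw [hl, Nat.floor_lt (mul_nonneg haN.le ht0)]
    push_cast
    nlinarith
  · intro m hm1 hm2
    refine ⟨x, hx0, hx1, ?_⟩
    obtain ⟨i, hi⟩ : ∃ i, N = m + i := ⟨N - m, by omega⟩
    have h1 := h i (by omega)
    set q : ℕ := l / a ^ m with hq
    set l' : ℕ := l % a ^ m with hl'
    have hdm : l = a ^ m * q + l' := (Nat.div_add_mod l (a ^ m)).symm
    have hdmR : (l : ℝ) = a ^ m * q + l' := by exact_mod_cast hdm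
    -- the identity
    have h2 : (k : ℝ) * yy a b ξ (n + i) =
        ((P * (a ^ i * b ^ m * ⌊α⌋₊ + b ^ m * q) : ℕ) : ℝ) +
          (P : ℝ) * b ^ m * (x + l') / a ^ m := by
      have h3 : (k : ℝ) * yy a b ξ (n + i) = P * (a ^ i * b ^ m) * α := by
        rw [hα]
        unfold yy
        rw [pow_add, hi, pow_add, div_pow ((a : ℝ)) b i]
        field_simp
      have h4 : (a : ℝ) ^ i * t = (x + l) / a ^ m := by
        rw [hx, hi, pow_add]
        field_simp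
        ring
      have h5 : P * ((a : ℝ) ^ i * b ^ m) * α =
          P * (a ^ i * b ^ m) * ⌊α⌋₊ + P * b ^ m * (a ^ i * t) := by
        conv_lhs => rw [hK]
        ring
      rw [h3, h5, h4, hdmR]
      push_cast
      field_simp
      ring
    have hw0 : 0 ≤ (P : ℝ) * b ^ m * (x + l') / a ^ m := by positivity
    have h3 : ⌊(k : ℝ) * yy a b ξ (n + i)⌋₊ =
        P * (a ^ i * b ^ m * ⌊α⌋₊ + b ^ m * q) + ⌊(P : ℝ) * b ^ m * (x + l') / a ^ m⌋₊ := by
      rw [h2, add_comm, Nat.floor_add_natCast hw0, add_comm]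
    rw [h3] at h1
    rwa [Nat.coprime_mul_left_add_left] at h1

theorem card_le (a b P : ℕ) (hcop : a.Coprime b) (hb : 1 < b) (hab : b < a) (hP : 0 < P)
    (m₀ : ℕ) (hm : ∀ m ≥ m₀, a * P * b ^ (m + 1) ≤ a ^ (m + 1)) (ξ : ℝ) (hξ : 0 < ξ) (X : ℕ)
    (hX : 1 ≤ X) (B : Finset ℕ) (hB : ∀ k ∈ B, 1 ≤ k ∧ k ≤ X ∧
      {n : ℕ | ¬ (⌊(k : ℝ) * yy a b ξ n⌋₊).Coprime P}.Finite) (N : ℕ)
    (hN : (a + b) * X ≤ a ^ N) :
    B.card ≤ a ^ m₀ * (P.totient * (a / P + 1)) ^ N := by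
  classical
  have hb0 : 0 < b := by omega
  have ha0 : 0 < a := by omega
  have hfin : ∀ k ∈ B, ∃ n₀, ∀ n ≥ n₀, (⌊(k : ℝ) * yy a b ξ n⌋₊).Coprime P := by
    intro k hk
    obtain ⟨M, hM⟩ := (hB k hk).2.2.bddAbove
    refine ⟨M + 1, fun n hn => ?_⟩
    by_contra hc
    have := hM (show n ∈ {n : ℕ | ¬ (⌊(k : ℝ) * yy a b ξ n⌋₊).Coprime P} from hc)
    omega
  choose! n₀ hn₀ using hfin
  have hPb : (0 : ℝ) < 1 / (P * b ^ N) := by positivity
  obtain ⟨n, hn, hgen⟩ := generic a b hcop hb hab ξ hξ (1 / (P * b ^ N)) hPb X hX (B.sup n₀)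
  set f : ℕ → ℕ := fun k =>
    ⌊(a : ℝ) ^ N * Int.fract ((k : ℝ) * (1 / (P * b ^ N) * yy a b ξ n))⌋₊ with hf
  have hmem : ∀ k ∈ B, f k ∈ TT a b P N := by
    intro k hk
    apply mem_TT a b P N ha0 hb0 hP ξ hξ n k
    intro i _
    apply hn₀ k hk
    have : n₀ k ≤ B.sup n₀ := Finset.le_sup hk
    omega
  -- injectivity
  have haNR : ((a : ℝ) + b) * X ≤ a ^ N := by exact_mod_cast hN
  have hkey : ∀ k ∈ B, ∀ k' ∈ B, k < k' → f k ≠ f k' := by
    intro k hk k' hk' hlt heq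
    obtain ⟨h1, h2, -⟩ := hB k hk
    obtain ⟨h1', h2', -⟩ := hB k' hk'
    set θ : ℝ := 1 / (P * b ^ N) * yy a b ξ n with hθ
    have haN : (0 : ℝ) < a ^ N := by positivity
    have hfl : ∀ j : ℕ, (f j : ℝ) ≤ a ^ N * Int.fract ((j : ℝ) * θ) ∧
        (a : ℝ) ^ N * Int.fract ((j : ℝ) * θ) < f j + 1 := by
      intro j
      have h0 : 0 ≤ (a : ℝ) ^ N * Int.fract ((j : ℝ) * θ) :=
        mul_nonneg haN.le (Int.fract_nonneg _)
      exact ⟨Nat.floor_le h0, Nat.lt_floor_add_one _⟩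
    have h3 := hgen (k' - k) (by omega) (by omega) (⌊(k' : ℝ) * θ⌋ - ⌊(k : ℝ) * θ⌋)
    have h4 : ((k' - k : ℕ) : ℝ) * θ - ((⌊(k' : ℝ) * θ⌋ - ⌊(k : ℝ) * θ⌋ : ℤ) : ℝ) =
        Int.fract ((k' : ℝ) * θ) - Int.fract ((k : ℝ) * θ) := by
      rw [Nat.cast_sub hlt.le]
      push_cast
      unfold Int.fract
      ring
    rw [h4] at h3
    have h5 := hfl k
    have h6 := hfl k'
    rw [← heq] at h6
    have h7 : (a : ℝ) ^ N * |Int.fract ((k' : ℝ) * θ) - Int.fract ((k : ℝ) * θ)| < 1 := by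
      rw [← abs_of_pos haN, ← abs_mul, abs_lt]
      constructor <;> nlinarith
    have h8 : ((a : ℝ) + b) * X * |Int.fract ((k' : ℝ) * θ) - Int.fract ((k : ℝ) * θ)| ≤
        (a : ℝ) ^ N * |Int.fract ((k' : ℝ) * θ) - Int.fract ((k : ℝ) * θ)| :=
      mul_le_mul_of_nonneg_right haNR (abs_nonneg _)
    linarith
  have hinj : Set.InjOn f B := by
    intro k hk k' hk' heq
    rcases lt_trichotomy k k' with h | h | h
    · exact absurd heq (hkey k hk k' hk' h)
    · exact h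
    · exact absurd heq.symm (hkey k' hk' k hk h)
  calc B.card = (B.image f).card := (Finset.card_image_of_injOn hinj).symm
    _ ≤ (TT a b P N).card := by
        apply Finset.card_le_card
        intro l hl
        obtain ⟨k, hk, rfl⟩ := Finset.mem_image.1 hl
        exact hmem k hk
    _ ≤ _ := TT_card a b P hcop ha0 hP m₀ hm N

open Classical in
theorem theorem2 (a b : ℕ) (hcop : a.Coprime b) (hb : 1 < b) (hab : b < a) (P : ℕ) (hP : 0 < P) :
    ∃ C : ℝ, ∀ ξ : ℝ, 0 < ξ → ∀ X : ℕ, 1 ≤ X →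
      (((Finset.Icc 1 X).filter (fun k : ℕ =>
        {n : ℕ | ¬ (⌊(k : ℝ) * yy a b ξ n⌋₊).Coprime P}.Finite)).card : ℝ) ≤
      C * (X : ℝ) ^ (Real.log ((P.totient * (a / P + 1) : ℕ) : ℝ) / Real.log a) := by
  obtain ⟨m₀, hm₀⟩ := exists_m0 a b P (by omega) hab
  have ha0 : 0 < a := by omega
  have ha1 : (1 : ℝ) < a := by
    have : 1 < a := by omega
    exact_mod_cast this
  have hbR : (0 : ℝ) < b := by
    have : 0 < b := by omega
    exact_mod_cast this
  set g : ℕ := P.totient * (a / P + 1) with hg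
  have hg1 : 1 ≤ g := Nat.mul_pos (Nat.totient_pos.2 hP) (Nat.succ_pos _)
  have hgR : (1 : ℝ) ≤ g := by exact_mod_cast hg1
  have hloga : 0 < Real.log a := Real.log_pos ha1
  have hγ : 0 ≤ Real.log (g : ℝ) / Real.log a := div_nonneg (Real.log_nonneg hgR) hloga.le
  refine ⟨(a : ℝ) ^ m₀ * ((a : ℝ) * (a + b)) ^ (Real.log (g : ℝ) / Real.log a), ?_⟩
  intro ξ hξ X hX
  have hXR : (1 : ℝ) ≤ X := by exact_mod_cast hX
  -- the least `N` with `(a + b) X ≤ a ^ N`
  have hex : ∃ N, (a + b) * X ≤ a ^ N := by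
    obtain ⟨N, hN⟩ := pow_unbounded_of_one_lt ((a + b) * X) (show 1 < a by omega)
    exact ⟨N, hN.le⟩
  set N := Nat.find hex with hN
  have hN1 : (a + b) * X ≤ a ^ N := Nat.find_spec hex
  have hN2 : (a : ℝ) ^ N ≤ a * (a + b) * X := by
    have hNpos : 0 < N := by
      rcases Nat.eq_zero_or_pos N with h | h
      · rw [h, pow_zero] at hN1
        have : 2 ≤ (a + b) * X := by nlinarith
        omega
      · exact h
    have h1 : ¬ (a + b) * X ≤ a ^ (N - 1) := Nat.find_min hex (by omega)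
    push Not at h1
    have h2 : a ^ N = a * a ^ (N - 1) := by
      rw [← pow_succ']
      congr 1
      omega
    have h3 : a ^ N ≤ a * ((a + b) * X) := by
      rw [h2]
      exact Nat.mul_le_mul_left _ h1.le
    calc (a : ℝ) ^ N ≤ a * ((a + b) * X) := by exact_mod_cast h3
      _ = _ := by ring
  have hcard := card_le a b P hcop hb hab hP m₀ hm₀ ξ hξ X hX
    ((Finset.Icc 1 X).filter (fun k : ℕ =>
        {n : ℕ | ¬ (⌊(k : ℝ) * yy a b ξ n⌋₊).Coprime P}.Finite)) (by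
      intro k hk
      rw [Finset.mem_filter, Finset.mem_Icc] at hk
      exact ⟨hk.1.1, hk.1.2, hk.2⟩) N hN1
  rw [← hg] at hcard
  have h1 : (((Finset.Icc 1 X).filter (fun k : ℕ =>
        {n : ℕ | ¬ (⌊(k : ℝ) * yy a b ξ n⌋₊).Coprime P}.Finite)).card : ℝ) ≤
      (a : ℝ) ^ m₀ * (g : ℝ) ^ N := by exact_mod_cast hcard
  have h2 : (g : ℝ) ^ N = ((a : ℝ) ^ N) ^ (Real.log (g : ℝ) / Real.log a) := by
    have ha0R : (0 : ℝ) < a := by linarith
    have hg0R : (0 : ℝ) < g := by linarith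
    have h3 : (a : ℝ) ^ (Real.log (g : ℝ) / Real.log a) = g := by
      rw [Real.rpow_def_of_pos ha0R, mul_div_cancel₀ _ hloga.ne', Real.exp_log hg0R]
    rw [← Real.rpow_natCast (a : ℝ) N, ← Real.rpow_mul ha0R.le, mul_comm, Real.rpow_mul ha0R.le,
      h3, Real.rpow_natCast]
  have h3 : ((a : ℝ) ^ N) ^ (Real.log (g : ℝ) / Real.log a) ≤
      ((a : ℝ) * (a + b) * X) ^ (Real.log (g : ℝ) / Real.log a) :=
    Real.rpow_le_rpow (by positivity) hN2 hγ
  have h4 : ((a : ℝ) * (a + b) * X) ^ (Real.log (g : ℝ) / Real.log a) =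
      ((a : ℝ) * (a + b)) ^ (Real.log (g : ℝ) / Real.log a) *
        (X : ℝ) ^ (Real.log (g : ℝ) / Real.log a) :=
    Real.mul_rpow (by positivity) (by positivity)
  calc (((Finset.Icc 1 X).filter (fun k : ℕ =>
        {n : ℕ | ¬ (⌊(k : ℝ) * yy a b ξ n⌋₊).Coprime P}.Finite)).card : ℝ) ≤
      (a : ℝ) ^ m₀ * (g : ℝ) ^ N := h1
    _ ≤ (a : ℝ) ^ m₀ * (((a : ℝ) * (a + b)) ^ (Real.log (g : ℝ) / Real.log a) *
        (X : ℝ) ^ (Real.log (g : ℝ) / Real.log a)) := by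
        apply mul_le_mul_of_nonneg_left _ (by positivity)
        rw [h2, ← h4]
        exact h3
    _ = _ := by ring

/-- the exponent for `P = 2` is less than one. -/
theorem exponent_two (a : ℕ) (ha : 3 ≤ a) :
    Real.log (((2 : ℕ).totient * (a / 2 + 1) : ℕ) : ℝ) / Real.log a < 1 := by
  have h1 : (2 : ℕ).totient = 1 := by decide
  rw [h1, one_mul]
  have ha1 : (1 : ℝ) < a := by
    have : 1 < a := by omega
    exact_mod_cast this
  rw [div_lt_one (Real.log_pos ha1)]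
  apply Real.log_lt_log
  · positivity
  · have : a / 2 + 1 < a := by omega
    exact_mod_cast this

end Pool.Agent.helper75.FP
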